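import Mathlib

/-!
# MP_77a7aa_co : a Hamiltonian path of the 9-cube with adjacent consecutive flips

The flip sequence `word9` (coordinates numbered 0..8) was found by a SAT search; the
kernel checks that it visits all 512 vertices and that consecutive flips differ by one.
-/

namespace Pool.Agent.Results.MP_77a7aa_co.NineCube

/-- The vertex of the cube obtained from `x` by flipping coordinate `i`. -/
def flipAt {n : ℕ} (x : Fin n → Bool) (i : Fin n) : Fin n → Bool :=
  Function.update x i (!(x i))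

/-- `AdjacentFlipPath n`: the cube `{0,1}^n` has a Hamiltonian path `v` (a sequence of
`2^n` vertices, each vertex exactly once), with flip sequence `s` (`v (i+1)` is `v i` with
coordinate `s i` flipped), such that any two consecutive entries of `s` differ by `1` in
absolute value. -/
def AdjacentFlipPath (n : ℕ) : Prop :=
  ∃ (v : Fin (2 ^ n) → (Fin n → Bool)) (s : Fin (2 ^ n - 1) → Fin n),
    Function.Bijective v ∧
    (∀ i : Fin (2 ^ n - 1), v ⟨i + 1, by omega⟩ = flipAt (v ⟨i, by omega⟩) (s i)) ∧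
    (∀ i : ℕ, ∀ h : i + 1 < 2 ^ n - 1,
      |((s ⟨i + 1, h⟩ : ℕ) : ℤ) - ((s ⟨i, by omega⟩ : ℕ) : ℤ)| = 1)

/-- the flip sequence, coordinates numbered `0..8` -/
def word9 : List ℕ :=
  [
   3, 2, 3, 4, 3, 2, 1, 2, 3, 4, 3, 2, 3, 4, 5, 6, 5, 4, 3, 4, 5, 6, 7, 6, 5, 4, 3, 4, 5, 4, 3, 2,
   3, 4, 5, 4, 3, 4, 5, 6, 7, 6, 5, 4, 3, 4, 5, 6, 7, 8, 7, 6, 5, 4, 3, 4, 5, 6, 7, 6, 5, 4, 3, 4,
   5, 4, 3, 2, 3, 4, 5, 4, 3, 4, 5, 6, 7, 6, 5, 4, 3, 4, 5, 6, 5, 4, 3, 2, 3, 4, 3, 2, 1, 2, 3, 4,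
   3, 2, 3, 4, 5, 4, 3, 2, 1, 2, 3, 2, 1, 0, 1, 2, 3, 2, 1, 2, 3, 4, 5, 4, 3, 2, 3, 4, 3, 2, 1, 2,
   3, 4, 3, 2, 3, 4, 5, 6, 5, 4, 3, 4, 5, 6, 7, 6, 5, 4, 3, 4, 5, 4, 3, 2, 3, 4, 5, 4, 3, 4, 5, 6,
   7, 6, 5, 4, 3, 4, 5, 6, 7, 8, 7, 6, 5, 4, 3, 4, 5, 6, 7, 6, 5, 4, 3, 4, 5, 4, 3, 2, 3, 4, 5, 4,
   3, 4, 5, 6, 7, 6, 5, 4, 3, 4, 5, 6, 5, 4, 3, 2, 3, 4, 3, 2, 1, 2, 3, 4, 3, 2, 3, 4, 5, 4, 3, 2,
   1, 2, 3, 2, 1, 0, 1, 2, 3, 2, 1, 2, 3, 4, 5, 6, 5, 4, 3, 2, 1, 2, 3, 2, 1, 0, 1, 2, 3, 2, 1, 2,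
   3, 4, 5, 4, 3, 4, 5, 6, 7, 8, 7, 6, 5, 4, 3, 4, 5, 4, 3, 2, 1, 2, 3, 2, 1, 0, 1, 2, 3, 2, 1, 2,
   3, 4, 5, 4, 3, 4, 5, 6, 7, 8, 7, 6, 5, 4, 3, 2, 3, 4, 5, 6, 7, 8, 7, 6, 5, 4, 3, 4, 5, 6, 7, 6,
   5, 4, 3, 4, 5, 4, 3, 2, 3, 4, 5, 4, 3, 4, 5, 6, 5, 4, 3, 2, 3, 4, 3, 2, 1, 2, 3, 4, 3, 2, 3, 4,
   5, 4, 3, 2, 1, 2, 3, 2, 1, 0, 1, 2, 3, 2, 1, 2, 3, 4, 5, 4, 3, 2, 3, 4, 3, 2, 1, 2, 3, 4, 3, 2,
   3, 4, 5, 6, 5, 4, 3, 4, 5, 4, 3, 2, 3, 4, 5, 4, 3, 4, 5, 6, 7, 6, 5, 4, 3, 4, 5, 6, 7, 8, 7, 6,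
   5, 4, 3, 4, 5, 6, 7, 6, 5, 4, 3, 4, 5, 4, 3, 2, 3, 4, 5, 4, 3, 4, 5, 6, 5, 4, 3, 2, 3, 4, 3, 2,
   1, 2, 3, 4, 3, 2, 3, 4, 5, 4, 3, 2, 1, 2, 3, 2, 1, 0, 1, 2, 3, 2, 1, 2, 3, 4, 5, 4, 3, 2, 3, 4,
   3, 2, 1, 2, 3, 4, 3, 2, 3, 4, 5, 6, 5, 4, 3, 4, 5, 4, 3, 2, 3, 4, 5, 4, 3, 4, 5, 6, 7, 6, 5
  ]

/-- running check: all entries `< 9`, every newly reached vertex is new -/
def check : List ℕ → ℕ → ℕ → Bool
  | [], _, _ => true
  | j :: l, cur, seen =>
    Nat.blt j 9 && !(seen.testBit (cur ^^^ 2 ^ j)) && check l (cur ^^^ 2 ^ j) (seen ||| 2 ^ (cur ^^^ 2 ^ j))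

/-- running check: consecutive entries differ by one -/
def checkAdj : List ℕ → Bool
  | [] => true
  | [_] => true
  | a :: b :: l => (Nat.beq (a + 1) b || Nat.beq a (b + 1)) && checkAdj (b :: l)

/-- vertices reached -/
def verts : List ℕ → ℕ → List ℕ
  | [], cur => [cur]
  | j :: l, cur => cur :: verts l (cur ^^^ 2 ^ j)

lemma verts_length (l : List ℕ) (cur : ℕ) : (verts l cur).length = l.length + 1 := by
  induction l generalizing cur with
  | nil => rfl
  | cons j l ih => simp [verts, ih]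

lemma verts_zero (l : List ℕ) (cur : ℕ) (h : 0 < (verts l cur).length) :
    (verts l cur)[0] = cur := by
  cases l <;> simp [verts]

lemma verts_succ (l : List ℕ) (cur : ℕ) (i : ℕ) (h : i < l.length) :
    (verts l cur)[i + 1]'(by rw [verts_length]; omega)
      = (verts l cur)[i]'(by rw [verts_length]; omega) ^^^ 2 ^ (l[i]) := by
  induction l generalizing cur i with
  | nil => simp at h
  | cons j l ih =>
    cases i with
    | zero =>
      simp only [verts, List.getElem_cons_succ, List.getElem_cons_zero]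
      rw [verts_zero]
    | succ i =>
      simp only [verts, List.getElem_cons_succ]
      exact ih _ i (by simpa using h)

lemma check_spec (l : List ℕ) (cur seen : ℕ) (hc : check l cur seen = true)
    (hcur : seen.testBit cur = true) :
    (∀ j ∈ l, j < 9) ∧ (verts l cur).Nodup ∧
      (∀ x ∈ (verts l cur).tail, seen.testBit x = false) := by
  induction l generalizing cur seen with
  | nil => simp [verts]
  | cons j l ih =>
    simp only [check, Bool.and_eq_true, Nat.blt_eq, Bool.not_eq_true'] at hc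
    obtain ⟨⟨hj, hnew⟩, hrest⟩ := hc
    have hset : (seen ||| 2 ^ (cur ^^^ 2 ^ j)).testBit (cur ^^^ 2 ^ j) = true := by
      rw [Nat.testBit_or, Nat.testBit_two_pow_self, Bool.or_true]
    obtain ⟨h1, h2, h3⟩ := ih _ _ hrest hset
    -- all vertices of the rest are unseen
    have h4 : ∀ x ∈ verts l (cur ^^^ 2 ^ j), seen.testBit x = false := by
      intro x hx
      have hcases : x = cur ^^^ 2 ^ j ∨ x ∈ (verts l (cur ^^^ 2 ^ j)).tail := by
        cases l with
        | nil => left; simpa [verts] using hx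
        | cons a l => simpa [verts] using hx
      rcases hcases with rfl | hx
      · exact hnew
      · have := h3 x hx
        rw [Nat.testBit_or, Bool.or_eq_false_iff] at this
        exact this.1
    refine ⟨?_, ?_, ?_⟩
    · intro a ha
      rcases List.mem_cons.mp ha with rfl | ha
      · exact hj
      · exact h1 a ha
    · simp only [verts, List.nodup_cons]
      refine ⟨fun hmem => ?_, h2⟩
      have := h4 _ hmem
      rw [hcur] at this
      exact absurd this (by simp)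
    · intro x hx
      simp only [verts, List.tail_cons] at hx
      exact h4 x hx

lemma checkAdj_spec (l : List ℕ) (h : checkAdj l = true) (i : ℕ) (hi : i + 1 < l.length) :
    l[i] + 1 = l[i + 1] ∨ l[i] = l[i + 1] + 1 := by
  induction l generalizing i with
  | nil => simp at hi
  | cons a l ih =>
    cases l with
    | nil => simp at hi
    | cons b l =>
      simp only [checkAdj, Bool.and_eq_true, Bool.or_eq_true, Nat.beq_eq_true_eq] at h
      cases i with
      | zero => simpa using h.1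
      | succ i =>
        have := ih h.2 i (by simpa using hi)
        simpa using this

lemma word9_length : word9.length = 511 := by decide +kernel

lemma word9_check : check word9 0 1 = true := by decide +kernel

lemma word9_adj : checkAdj word9 = true := by decide +kernel

lemma verts_lt (l : List ℕ) (hl : ∀ j ∈ l, j < 9) (cur : ℕ) (hcur : cur < 2 ^ 9) :
    ∀ x ∈ verts l cur, x < 2 ^ 9 := by
  induction l generalizing cur with
  | nil => intro x hx; simp only [verts, List.mem_singleton] at hx; omega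
  | cons j l ih =>
    intro x hx
    simp only [verts, List.mem_cons] at hx
    rcases hx with rfl | hx
    · exact hcur
    · refine ih (fun a ha => hl a (List.mem_cons_of_mem _ ha)) _ ?_ x hx
      apply Nat.xor_lt_two_pow hcur
      exact Nat.pow_lt_pow_right (by norm_num) (hl j (List.mem_cons_self ..))

/-- The 9-dimensional cube has a Hamiltonian path any two consecutive flips of which are
in adjacent coordinates. -/
theorem result : AdjacentFlipPath 9 := by
  obtain ⟨hlt, hnd, -⟩ := check_spec word9 0 1 word9_check (by decide)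
  have hlen := word9_length
  have hvl : (verts word9 0).length = 512 := by rw [verts_length, hlen]
  let v : Fin (2 ^ 9) → (Fin 9 → Bool) := fun i k =>
    ((verts word9 0)[(i : ℕ)]'(by rw [hvl]; have := i.2; omega)).testBit k
  let s : Fin (2 ^ 9 - 1) → Fin 9 := fun i =>
    ⟨word9[(i : ℕ)]'(by rw [hlen]; have := i.2; omega),
      hlt _ (List.getElem_mem _)⟩
  refine ⟨v, s, ?_, ?_, ?_⟩
  · have hinj : Function.Injective v := by
      intro a b hab
      have hval : (verts word9 0)[(a : ℕ)]'(by rw [hvl]; have := a.2; omega)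
          = (verts word9 0)[(b : ℕ)]'(by rw [hvl]; have := b.2; omega) := by
        apply Nat.eq_of_testBit_eq
        intro k
        by_cases hk : k < 9
        · exact congrFun hab ⟨k, hk⟩
        · have hbig : ∀ m : ℕ, m < 2 ^ 9 → m.testBit k = false := by
            intro m hm
            apply Nat.testBit_lt_two_pow
            exact lt_of_lt_of_le hm (Nat.pow_le_pow_right (by norm_num) (by omega))
          rw [hbig _ (verts_lt word9 hlt 0 (by norm_num) _ (List.getElem_mem _)),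
            hbig _ (verts_lt word9 hlt 0 (by norm_num) _ (List.getElem_mem _))]
      have := (List.Nodup.getElem_inj_iff hnd).mp hval
      exact Fin.ext this
    exact (Fintype.bijective_iff_injective_and_card v).mpr ⟨hinj, by simp⟩
  · intro i
    funext k
    have hi : (i : ℕ) < word9.length := by rw [hlen]; have := i.2; omega
    have hstep := verts_succ word9 0 i hi
    show ((verts word9 0)[(i : ℕ) + 1]'_).testBit k = _
    rw [hstep, Nat.testBit_xor, Nat.testBit_two_pow]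
    simp only [flipAt, Function.update_apply]
    by_cases hk : k = s i
    · subst hk
      simp [s, v]
    · have hk' : ¬ (word9[(i : ℕ)] = (k : ℕ)) := fun h => hk (Fin.ext h.symm)
      simp [hk, hk', v]
  · intro i h
    have hi : i + 1 < word9.length := by rw [hlen]; omega
    have := checkAdj_spec word9 word9_adj i hi
    show |((word9[i + 1] : ℕ) : ℤ) - ((word9[i] : ℕ) : ℤ)| = 1
    rcases this with h | h
    · rw [← h]; push_cast; simp
    · rw [h]; push_cast
      rw [show ((word9[i + 1] : ℕ) : ℤ) - (((word9[i + 1] : ℕ) : ℤ) + 1) = -1 by ring]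
      simp

end Pool.Agent.Results.MP_77a7aa_co.NineCube
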